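import Pool.Agent.R963.Rate.Prob

/-!
# MP_d9d0cb_pr, Q1: the rate `2/(5(1-α))` for weighted first-passage percolation fails

Rate `χ` never holds for `χ > 1`: on `E(χ,t₀)` one would have `|T(0,n e₁) - D(0,n e₁)| ≤ 1` for
all large `n`, while raising the times of the finitely many edges at the origin shifts all the
`T(0,n e₁)` by more than that.  Since `2/(5(1-α)) > 1` exactly when `α > 3/5`, the assertion of Q1
is false, in every dimension, for every `α ∈ (3/5,1)` and every `f₀`.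
-/

open MeasureTheory ProbabilityTheory Filter Topology

namespace Pool.Agent.Results.MP_d9d0cb_pr.RateFails

open Pool.Agent.R963.Star Pool.Agent.R963.Rate

/-- Let `d ≥ 1`, `μ` any norm on `ℝ^d`, `α < 1` and `f₀` any positive Lipschitz function on the
unit sphere.  (1) Edge times of the weighted model exist.  (2) For all edge times of the model and
all `χ > 1`, `P(E(χ,t₀))` is bounded away from `1` uniformly in `t₀`, and
`t₀^s (1 - P(E(χ,t₀))) → ∞` for every `s > 0`.  (3) If `α > 3/5`, some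
`χ ∈ (0, 2/(5(1-α)))` is such that rate `χ` does not hold. -/
theorem result (d : ℕ) (hd : 1 ≤ d) (μ : Seminorm ℝ (E d)) (hμ : ∀ x, μ x = 0 → x = 0)
    (α : ℝ) (hα : α < 1) (f₀ : E d → ℝ) (hf : IsAngular f₀) :
    (∃ P : Measure ((lattice d).edgeSet → ℝ), IsProbabilityMeasure P ∧
      IsEdgeTimes α f₀ (fun e x => x e) P) ∧
    (∀ (Ω : Type) [MeasurableSpace Ω] (P : Measure Ω) [IsProbabilityMeasure P]
      (X : (lattice d).edgeSet → Ω → ℝ), IsEdgeTimes α f₀ X P → ∀ χ : ℝ, 1 < χ →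
        (∃ δ : ℝ, 0 < δ ∧ ∀ t₀ : ℝ, (P (rateEvent μ α f₀ X χ t₀)).toReal ≤ 1 - δ) ∧
        ∀ s : ℝ, 0 < s → Tendsto
          (fun t₀ : ℝ => t₀ ^ s * (1 - (P (rateEvent μ α f₀ X χ t₀)).toReal)) atTop atTop) ∧
    (3 / 5 < α → ∃ χ : ℝ, 0 < χ ∧ χ < 2 / (5 * (1 - α)) ∧
      ∀ (Ω : Type) [MeasurableSpace Ω] (P : Measure Ω) [IsProbabilityMeasure P]
        (X : (lattice d).edgeSet → Ω → ℝ), IsEdgeTimes α f₀ X P →
        ¬ RateHolds μ α f₀ X P χ) := by
  refine ⟨exists_model hf, ?_, ?_⟩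
  · intro Ω _ P _ X hX χ hχ
    exact ⟨main hd μ hμ hα hf P X hX hχ, fun s hs => diverges hd μ hμ hα hf P X hX hχ hs⟩
  · intro hα'
    have h1 : 1 < 2 / (5 * (1 - α)) := by
      rw [lt_div_iff₀ (by linarith)]
      linarith
    obtain ⟨χ, hχ1, hχ2⟩ := exists_between h1
    exact ⟨χ, by linarith, hχ2, fun Ω _ P _ X hX => not_rateHolds hd μ hμ hα hf P X hX hχ1⟩

end Pool.Agent.Results.MP_d9d0cb_pr.RateFails
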